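import Mathlib

open Set
open scoped Matroid

universe u

namespace Pool.Agent.Results.MP_cb2a9f_co.SmallestSystem

variable {S : Type u}

/-- A basis of a family of sets is a maximal member. -/
def IsBasisOf (I : Set (Set S)) (B : Set S) : Prop := Maximal (fun Y => Y ∈ I) B

/-- The restriction of a family to `Z`. -/
def restriction (I : Set (Set S)) (Z : Set S) : Set (Set S) := {Y | Y ⊆ Z ∧ Y ∈ I}

/-- The contraction of a family to `Z`, formed with the set `B`, which is meant to be a basis of the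
restriction of the family to `W \ Z`. -/
def contraction (I : Set (Set S)) (Z B : Set S) : Set (Set S) := {Y | Y ⊆ Z ∧ Y ∪ B ∈ I}

/-- The dual of a family on `W`. -/
def dual (W : Set S) (I : Set (Set S)) : Set (Set S) :=
  {X | X ⊆ W ∧ ∃ B, IsBasisOf I B ∧ B ⊆ W \ X}

/-- Pre-independence spaces on `W`. -/
structure PreIndependenceSpace (W : Set S) (I : Set (Set S)) : Prop where
  subset_ground : ∀ X ∈ I, X ⊆ W
  empty_mem : ∅ ∈ I
  down_closed : ∀ X ∈ I, ∀ Y ⊆ X, Y ∈ I
  augment : ∀ I₁ ∈ I, ∀ I₂ ∈ I, I₁.Finite → I₂.Finite → I₁.ncard < I₂.ncard →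
    ∃ e ∈ I₂ \ I₁, I₁ ∪ {e} ∈ I

/-- Independence spaces on `W`. -/
structure IndependenceSpace (W : Set S) (I : Set (Set S)) : Prop where
  pre : PreIndependenceSpace W I
  finitary : ∀ Y ⊆ W, (∀ F ⊆ Y, F.Finite → F ∈ I) → Y ∈ I

/-- B-matroids on `W`. -/
structure BMatroid (W : Set S) (I : Set (Set S)) : Prop where
  subset_ground : ∀ X ∈ I, X ⊆ W
  empty_mem : ∅ ∈ I
  down_closed : ∀ X ∈ I, ∀ Y ⊆ X, Y ∈ I
  ib1 : ∀ X ⊆ W, ∀ T ∈ I, T ⊆ X → ∃ M, IsBasisOf (restriction I X) M ∧ T ⊆ M
  ib2 : ∀ X ⊆ W, ∀ B₁ B₂, IsBasisOf (restriction I X) B₁ → IsBasisOf (restriction I X) B₂ →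
    ∀ x ∈ B₁ \ B₂, ∃ y ∈ B₂ \ B₁, IsBasisOf (restriction I X) ((B₁ \ {x}) ∪ {y})

/-- Admissible systems on the set `S`. -/
structure Admissible (D : Set S → Set (Set (Set S))) : Prop where
  pre : ∀ W, ∀ I ∈ D W, PreIndependenceSpace W I
  restriction_mem : ∀ Z W, Z ⊆ W → ∀ I ∈ D W, restriction I Z ∈ D Z
  exists_basis : ∀ Z W, Z ⊆ W → ∀ I ∈ D W, ∃ B, IsBasisOf (restriction I (W \ Z)) B
  contraction_unique : ∀ Z W, Z ⊆ W → ∀ I ∈ D W, ∀ B B',
    IsBasisOf (restriction I (W \ Z)) B → IsBasisOf (restriction I (W \ Z)) B' →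
      contraction I Z B = contraction I Z B'
  contraction_mem : ∀ Z W, Z ⊆ W → ∀ I ∈ D W, ∀ B, IsBasisOf (restriction I (W \ Z)) B →
    contraction I Z B ∈ D Z
  dual_mem : ∀ W, ∀ I ∈ D W, dual W I ∈ D W
  dual_dual : ∀ W, ∀ I ∈ D W, dual W (dual W I) = I

/-! ### Translation to Mathlib's matroids -/

/-- The family of independent sets of a matroid. -/
def fam (M : Matroid S) : Set (Set S) := {X | M.Indep X}

@[simp] theorem mem_fam {M : Matroid S} {X : Set S} : X ∈ fam M ↔ M.Indep X := Iff.rfl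

theorem fam_pre (M : Matroid S) : PreIndependenceSpace M.E (fam M) where
  subset_ground X hX := hX.subset_ground
  empty_mem := M.empty_indep
  down_closed X hX Y hY := hX.subset hY
  augment I₁ h₁ I₂ h₂ hf₁ hf₂ hlt := by
    have hlt' : I₁.encard < I₂.encard := by
      rw [← hf₁.cast_ncard_eq, ← hf₂.cast_ncard_eq]
      exact_mod_cast hlt
    obtain ⟨e, he, h⟩ := Matroid.Indep.augment h₁ h₂ hlt'
    exact ⟨e, he, by simpa [union_singleton] using h⟩

theorem restriction_fam (M : Matroid S) (Z : Set S) : restriction (fam M) Z = fam (M ↾ Z) := by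
  ext X
  simp [restriction, Matroid.restrict_indep_iff, and_comm]

theorem isBasisOf_fam (M : Matroid S) (B : Set S) : IsBasisOf (fam M) B ↔ M.IsBase B := by
  rw [Matroid.isBase_iff_maximal_indep]
  rfl

theorem isBasisOf_restriction (M : Matroid S) (X : Set S) (hX : X ⊆ M.E) (B : Set S) :
    IsBasisOf (restriction (fam M) X) B ↔ M.IsBasis B X := by
  rw [restriction_fam, isBasisOf_fam, Matroid.isBase_restrict_iff]

theorem contraction_fam (M : Matroid S) (Z B : Set S)
    (hB : M.IsBasis B (M.E \ Z)) : contraction (fam M) Z B = fam (M ／ (M.E \ Z)) := by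
  ext X
  rw [mem_fam, hB.contract_indep_iff]
  constructor
  · rintro ⟨h1, h2⟩
    exact ⟨h2, (disjoint_sdiff_right.mono_left h1).symm⟩
  · rintro ⟨h1, h2⟩
    refine ⟨fun x hx => ?_, h1⟩
    by_contra hxZ
    exact h2.le_bot ⟨⟨h1.subset_ground (Or.inl hx), hxZ⟩, hx⟩

theorem dual_fam (M : Matroid S) : dual M.E (fam M) = fam M✶ := by
  ext X
  simp only [dual, mem_ofPred_eq, isBasisOf_fam, mem_fam, Matroid.dual_indep_iff_exists']
  refine and_congr_right fun hX => exists_congr fun B => and_congr_right fun hB => ?_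
  rw [subset_sdiff, and_iff_right hB.subset_ground, disjoint_comm]

theorem fam_bMatroid (M : Matroid S) : BMatroid M.E (fam M) where
  subset_ground X hX := hX.subset_ground
  empty_mem := M.empty_indep
  down_closed X hX Y hY := hX.subset hY
  ib1 X hX T hT hTX := by
    obtain ⟨J, hJ, hTJ⟩ := Matroid.Indep.subset_isBasis_of_subset hT hTX hX
    exact ⟨J, (isBasisOf_restriction M X hX J).2 hJ, hTJ⟩
  ib2 X hX B₁ B₂ h₁ h₂ x hx := by
    rw [restriction_fam, isBasisOf_fam] at h₁ h₂
    obtain ⟨y, hy, h⟩ := h₁.exchange h₂ hx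
    refine ⟨y, hy, ?_⟩
    rw [restriction_fam, isBasisOf_fam, union_singleton]
    exact h

/-- The independent set families of the finitary and of the cofinitary matroids. -/
def finCofin (W : Set S) : Set (Set (Set S)) :=
  {I | ∃ M : Matroid S, M.E = W ∧ (M.Finitary ∨ M✶.Finitary) ∧ fam M = I}

theorem finCofin_admissible : Admissible (finCofin (S := S)) where
  pre := by
    rintro W _ ⟨M, rfl, -, rfl⟩
    exact fam_pre M
  restriction_mem := by
    rintro Z W hZ _ ⟨M, rfl, hM, rfl⟩
    refine ⟨M ↾ Z, rfl, ?_, (restriction_fam M Z).symm⟩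
    rcases hM with hM | hM
    · exact Or.inl inferInstance
    · right
      have h : M ↾ Z = M ＼ (M.E \ Z) := by
        rw [Matroid.delete_eq_restrict, sdiff_sdiff_cancel_left hZ]
      rw [h, Matroid.dual_delete]
      infer_instance
  exists_basis := by
    rintro Z W hZ _ ⟨M, rfl, hM, rfl⟩
    obtain ⟨B, hB⟩ := M.exists_isBasis (M.E \ Z)
    exact ⟨B, (isBasisOf_restriction M _ sdiff_subset B).2 hB⟩
  contraction_unique := by
    rintro Z W hZ _ ⟨M, rfl, hM, rfl⟩ B B' hB hB'
    rw [isBasisOf_restriction M _ sdiff_subset] at hB hB'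
    rw [contraction_fam M Z B hB, contraction_fam M Z B' hB']
  contraction_mem := by
    rintro Z W hZ _ ⟨M, rfl, hM, rfl⟩ B hB
    rw [isBasisOf_restriction M _ sdiff_subset] at hB
    refine ⟨M ／ (M.E \ Z), ?_, ?_, (contraction_fam M Z B hB).symm⟩
    · rw [Matroid.contract_ground, sdiff_sdiff_cancel_left hZ]
    · rcases hM with hM | hM
      · exact Or.inl inferInstance
      · right
        rw [Matroid.dual_contract]
        infer_instance
  dual_mem := by
    rintro W _ ⟨M, rfl, hM, rfl⟩
    refine ⟨M✶, rfl, ?_, (dual_fam M).symm⟩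
    rw [Matroid.dual_dual]
    exact hM.symm
  dual_dual := by
    rintro W _ ⟨M, rfl, hM, rfl⟩
    rw [dual_fam]
    have h := dual_fam M✶
    rw [Matroid.dual_ground, Matroid.dual_dual] at h
    exact h

theorem exists_finitary {W : Set S} {I : Set (Set S)} (h : IndependenceSpace W I) :
    ∃ M : Matroid S, M.E = W ∧ M.Finitary ∧ fam M = I := by
  refine ⟨(IndepMatroid.ofFinitaryCardAugment W (fun X => X ∈ I) h.pre.empty_mem
    (fun I J hJ hIJ => h.pre.down_closed J hJ I hIJ) ?_ ?_ (fun X hX => h.pre.subset_ground X hX)).matroid,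
    rfl, inferInstance, ?_⟩
  · intro I₁ I₂ h₁ hf₁ h₂ hf₂ hlt
    obtain ⟨e, he, hins⟩ := h.pre.augment I₁ h₁ I₂ h₂ hf₁ hf₂ hlt
    exact ⟨e, he.1, he.2, by simpa [union_singleton] using hins⟩
  · intro X hX
    refine h.finitary X (fun x hx => ?_) hX
    exact h.pre.subset_ground _ (hX {x} (by simpa using hx) (finite_singleton x)) rfl
  · ext X
    rfl

/-! ### A matroid that is neither finitary nor cofinitary -/

/-- The rank-one uniform matroid on `E`. -/
def rankOne (E : Set S) : Matroid S := (Matroid.freeOn (univ : Set Unit)).comapOn E (fun _ => ())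

theorem rankOne_ground (E : Set S) : (rankOne E).E = E := rfl

theorem rankOne_indep {E I : Set S} : (rankOne E).Indep I ↔ I.Subsingleton ∧ I ⊆ E := by
  rw [rankOne, Matroid.comapOn_indep_iff]
  simp only [Matroid.freeOn_indep_iff, subset_univ, true_and]
  refine and_congr_left fun _ => ?_
  constructor
  · intro h x hx y hy
    exact h hx hy rfl
  · intro h x hx y hy _
    exact h hx hy

theorem rankOne_isBase {E B : Set S} (hE : E.Nonempty) :
    (rankOne E).IsBase B ↔ ∃ e ∈ E, B = {e} := by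
  constructor
  · intro h
    have hi := rankOne_indep.1 h.indep
    rcases hi.1.eq_empty_or_singleton with h0 | ⟨e, he⟩
    · obtain ⟨e, he⟩ := hE
      have h1 : (rankOne E).Indep {e} := rankOne_indep.2 ⟨subsingleton_singleton, by simpa using he⟩
      have h2 : B = {e} := h.eq_of_subset_indep h1 (by simp [h0])
      rw [h0] at h2
      exact absurd h2.symm (singleton_ne_empty e)
    · exact ⟨e, hi.2 (by simp [he]), he⟩
  · rintro ⟨e, he, rfl⟩
    obtain ⟨B, hB, hsub⟩ := (rankOne_indep.2
      ⟨subsingleton_singleton, by simpa using he⟩ : (rankOne E).Indep {e}).exists_isBase_superset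
    have hi := rankOne_indep.1 hB.indep
    have : B = {e} := (subset_antisymm hsub fun x hx => hi.1 hx (hsub rfl)).symm
    rwa [← this]

theorem rankOne_dual_indep {E I : Set S} (hE : E.Nonempty) :
    (rankOne E)✶.Indep I ↔ I ⊆ E ∧ ∃ e ∈ E, e ∉ I := by
  rw [Matroid.dual_indep_iff_exists', rankOne_ground]
  refine and_congr_right fun _ => ?_
  constructor
  · rintro ⟨B, hB, hd⟩
    obtain ⟨e, he, rfl⟩ := (rankOne_isBase hE).1 hB
    exact ⟨e, he, by simpa using hd⟩
  · rintro ⟨e, he, heI⟩
    exact ⟨{e}, (rankOne_isBase hE).2 ⟨e, he, rfl⟩, by simpa using heI⟩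

theorem disjointSum_dual {M N : Matroid S} (h : Disjoint M.E N.E) (h' : Disjoint M✶.E N✶.E) :
    (M.disjointSum N h)✶ = M✶.disjointSum N✶ h' := by
  refine Matroid.ext_isBase (by simp) fun B hB => ?_
  have hB' : B ⊆ M.E ∪ N.E := by simpa using hB
  rw [Matroid.dual_isBase_iff', Matroid.disjointSum_isBase_iff, Matroid.disjointSum_isBase_iff,
    Matroid.dual_isBase_iff', Matroid.dual_isBase_iff', Matroid.disjointSum_ground_eq]
  have e1 : ((M.E ∪ N.E) \ B) ∩ M.E = M.E \ (B ∩ M.E) := by
    ext x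
    simp only [mem_inter_iff, mem_sdiff, mem_union]
    tauto
  have e2 : ((M.E ∪ N.E) \ B) ∩ N.E = N.E \ (B ∩ N.E) := by
    ext x
    simp only [mem_inter_iff, mem_sdiff, mem_union]
    tauto
  rw [e1, e2]
  simp only [sdiff_subset, inter_subset_right, and_true, Matroid.dual_ground]
  tauto

/-- The direct sum of a rank-one uniform matroid and the dual of one is not finitary. -/
theorem not_finitary_sum {A B : Set S} (hA : A.Infinite) (hAB : Disjoint A B)
    (N : Matroid S) (hN : N.E = B) (h : Disjoint (rankOne A)✶.E N.E) :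
    ¬ ((rankOne A)✶.disjointSum N h).Finitary := by
  intro hfin
  have hAN : ∀ F ⊆ A, F ∩ N.E = ∅ := fun F hF =>
    (hAB.mono_left hF |>.mono_right hN.le).inter_eq
  have hind : ((rankOne A)✶.disjointSum N h).Indep A := by
    refine Matroid.indep_of_forall_finite_subset_indep A fun F hF hFfin => ?_
    rw [Matroid.disjointSum_indep_iff, hAN F hF]
    refine ⟨?_, N.empty_indep, hF.trans subset_union_left⟩
    rw [rankOne_dual_indep hA.nonempty]
    obtain ⟨e, he, heF⟩ := hA.exists_notMem_finite hFfin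
    exact ⟨inter_subset_right, e, he, fun hc => heF hc.1⟩
  rw [Matroid.disjointSum_indep_iff, rankOne_dual_indep hA.nonempty] at hind
  obtain ⟨-, e, he, heI⟩ := hind.1
  exact heI ⟨he, he⟩

theorem exists_bMatroid {W : Set S} (hW : W.Infinite) : ∃ I, BMatroid W I ∧ I ∉ finCofin W := by
  -- split `W` into two infinite sets
  obtain ⟨A, B, hAB, hA, hB, hWe⟩ : ∃ A B : Set S, Disjoint A B ∧ A.Infinite ∧ B.Infinite ∧
      W = A ∪ B := by
    let f := hW.natEmbedding W
    refine ⟨range fun n => (f (2 * n) : S), W \ range fun n => (f (2 * n) : S), disjoint_sdiff_right,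
      ?_, ?_, ?_⟩
    · refine infinite_range_of_injective fun m n hmn => ?_
      have := f.injective (Subtype.ext hmn)
      omega
    · refine (infinite_range_of_injective (f := fun n => (f (2 * n + 1) : S)) ?_).mono ?_
      · intro m n hmn
        have := f.injective (Subtype.ext hmn)
        omega
      · rintro _ ⟨n, rfl⟩
        refine ⟨(f (2 * n + 1)).2, ?_⟩
        rintro ⟨m, hm⟩
        have := f.injective (Subtype.ext hm)
        omega
    · rw [union_sdiff_cancel]
      rintro _ ⟨n, rfl⟩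
      exact (f (2 * n)).2
  have hd : Disjoint (rankOne A)✶.E (rankOne B).E := hAB
  have hd1 : Disjoint (rankOne A)✶✶.E (rankOne B)✶.E := hAB
  have hd2 : Disjoint (rankOne B)✶.E (rankOne A).E := hAB.symm
  let M : Matroid S := (rankOne A)✶.disjointSum (rankOne B) hd
  have hME : M.E = W := by
    simp only [M, Matroid.disjointSum_ground_eq, Matroid.dual_ground, rankOne_ground, hWe]
  refine ⟨fam M, hME ▸ fam_bMatroid M, ?_⟩
  rintro ⟨M', hM'E, hM', hfam⟩
  have hMM' : M' = M := by
    refine Matroid.ext_indep (hM'E.trans hME.symm) fun I _ => ?_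
    exact Set.ext_iff.1 hfam I
  subst hMM'
  rcases hM' with hM' | hM'
  · exact not_finitary_sum hA hAB (rankOne B) rfl hd hM'
  · have e : M✶ = (rankOne B)✶.disjointSum (rankOne A) hd2 := by
      simp only [M]
      rw [disjointSum_dual hd hd1, Matroid.disjointSum_comm]
      simp only [Matroid.dual_dual]
    rw [e] at hM'
    exact not_finitary_sum hB hAB.symm (rankOne A) rfl hd2 hM'

/-- **Answer to Q1: no.** On every set `S` (infinite or not) there is a smallest admissible system
`D` containing all independence spaces, and for every infinite `W ⊆ S` some B-matroid on `W` is not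
in `D W`. -/
theorem result (S : Type u) : ∃ D : Set S → Set (Set (Set S)),
    Admissible D ∧ (∀ W I, IndependenceSpace W I → I ∈ D W) ∧
    (∀ D' : Set S → Set (Set (Set S)), Admissible D' →
      (∀ W I, IndependenceSpace W I → I ∈ D' W) → ∀ W, D W ⊆ D' W) ∧
    ∀ W : Set S, W.Infinite → ∃ I, BMatroid W I ∧ I ∉ D W := by
  refine ⟨finCofin, finCofin_admissible, ?_, ?_, fun W hW => exists_bMatroid hW⟩
  · intro W I h
    obtain ⟨M, hE, hM, hf⟩ := exists_finitary h
    exact ⟨M, hE, Or.inl hM, hf⟩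
  · rintro D' hD' hind W _ ⟨M, rfl, hM, rfl⟩
    have key : ∀ N : Matroid S, N.Finitary → fam N ∈ D' N.E := by
      intro N hN
      refine hind _ _ ⟨fam_pre N, fun Y _ hY => ?_⟩
      exact Matroid.indep_of_forall_finite_subset_indep Y hY
    rcases hM with hM | hM
    · exact key M hM
    · have h := hD'.dual_mem _ _ (key M✶ hM)
      rw [dual_fam, Matroid.dual_dual] at h
      exact h

end Pool.Agent.Results.MP_cb2a9f_co.SmallestSystem
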